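import Pool.Agent.Helper68.SG2.GoalsE

/-!
# Project SG stage 2 (MP_a41896_nt), packet SH2-PRD: products of scaled heights
(The Minkowski inequality and the product of packings are as in `Pool.Agent.Helper36.BL.BALLg`.)
-/

set_option autoImplicit false

namespace Pool.Agent.Helper25.SG2

open WeierstrassCurve Height Height.AdmissibleAbsValues
open Pool.Agent.Helper29.BL Pool.Agent.Helper42.SG Pool.Agent.Helper68.SG2

noncomputable section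

theorem minkowski2 (a₁ a₂ b₁ b₂ : ℝ) :
    √((a₁ + b₁) ^ 2 + (a₂ + b₂) ^ 2) ≤ √(a₁ ^ 2 + a₂ ^ 2) + √(b₁ ^ 2 + b₂ ^ 2) := by
  have hA : 0 ≤ a₁ ^ 2 + a₂ ^ 2 := by positivity
  have hB : 0 ≤ b₁ ^ 2 + b₂ ^ 2 := by positivity
  have sA := Real.sq_sqrt hA
  have sB := Real.sq_sqrt hB
  have nA := Real.sqrt_nonneg (a₁ ^ 2 + a₂ ^ 2)
  have nB := Real.sqrt_nonneg (b₁ ^ 2 + b₂ ^ 2)
  have hcs : a₁ * b₁ + a₂ * b₂ ≤ √(a₁ ^ 2 + a₂ ^ 2) * √(b₁ ^ 2 + b₂ ^ 2) := by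
    rw [← Real.sqrt_mul hA]
    refine Real.le_sqrt_of_sq_le ?_
    nlinarith [sq_nonneg (a₁ * b₂ - a₂ * b₁)]
  rw [Real.sqrt_le_left (by positivity)]
  nlinarith

theorem tri_prod {G G' : Type} [AddCommGroup G] [AddCommGroup G'] {H₁ : G → ℝ} {H₂ : G' → ℝ}
    (n₁ : ∀ x, 0 ≤ H₁ x) (n₂ : ∀ x, 0 ≤ H₂ x)
    (t₁ : ∀ x y, √(H₁ (x + y)) ≤ √(H₁ x) + √(H₁ y))
    (t₂ : ∀ x y, √(H₂ (x + y)) ≤ √(H₂ x) + √(H₂ y)) (x y : G × G') :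
    √(H₁ (x + y).1 + H₂ (x + y).2) ≤ √(H₁ x.1 + H₂ x.2) + √(H₁ y.1 + H₂ y.2) := by
  have h1 : H₁ (x + y).1 ≤ (√(H₁ x.1) + √(H₁ y.1)) ^ 2 := by
    rw [← Real.sqrt_le_left (by positivity)]
    exact t₁ x.1 y.1
  have h2 : H₂ (x + y).2 ≤ (√(H₂ x.2) + √(H₂ y.2)) ^ 2 := by
    rw [← Real.sqrt_le_left (by positivity)]
    exact t₂ x.2 y.2
  have h3 := minkowski2 (√(H₁ x.1)) (√(H₂ x.2)) (√(H₁ y.1)) (√(H₂ y.2))
  rw [Real.sq_sqrt (n₁ _), Real.sq_sqrt (n₂ _), Real.sq_sqrt (n₁ _), Real.sq_sqrt (n₂ _)] at h3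
  exact (Real.sqrt_le_sqrt (add_le_add h1 h2)).trans h3

theorem pk_prod {G G' : Type} [AddCommGroup G] [AddCommGroup G'] {H₁ : G → ℝ} {H₂ : G' → ℝ}
    (n₁ : ∀ x, 0 ≤ H₁ x) (n₂ : ∀ x, 0 ≤ H₂ x) {Γ₁ : AddSubgroup G} {Γ₂ : AddSubgroup G'}
    (p₁ : Pk Γ₁ H₁) (p₂ : Pk Γ₂ H₂) : Pk (Γ₁.prod Γ₂) (fun z : G × G' => H₁ z.1 + H₂ z.2) := by
  classical
  intro κ hκ
  have s2 : 1 ≤ √(2 : ℝ) := by
    rw [Real.one_le_sqrt]; norm_num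
  have s20 : 0 < √(2 : ℝ) := by positivity
  have hκ' : 1 ≤ κ * √2 := by nlinarith
  obtain ⟨N₁, hN₁⟩ := p₁ (κ * √2) hκ'
  obtain ⟨N₂, hN₂⟩ := p₂ (κ * √2) hκ'
  refine ⟨N₁ * N₂, fun B hB ρ hρ hd => ?_⟩
  have hρ' : 0 < ρ / √2 := by positivity
  have hmul : κ * √2 * (ρ / √2) = κ * ρ := by field_simp
  obtain ⟨f₁, hf₁⟩ := hN₁ (B.image Prod.fst) (by
    intro z hz
    obtain ⟨w, hw, rfl⟩ := Finset.mem_image.1 hz
    exact (AddSubgroup.mem_prod.1 (hB w hw)).1) (ρ / √2) hρ' (by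
    intro z hz z' hz'
    obtain ⟨w, hw, rfl⟩ := Finset.mem_image.1 hz
    obtain ⟨w', hw', rfl⟩ := Finset.mem_image.1 hz'
    rw [hmul]
    refine (Real.sqrt_le_sqrt ?_).trans (hd w hw w' hw')
    have := n₂ (w - w').2
    change H₁ (w - w').1 ≤ H₁ (w - w').1 + H₂ (w - w').2
    linarith)
  obtain ⟨f₂, hf₂⟩ := hN₂ (B.image Prod.snd) (by
    intro z hz
    obtain ⟨w, hw, rfl⟩ := Finset.mem_image.1 hz
    exact (AddSubgroup.mem_prod.1 (hB w hw)).2) (ρ / √2) hρ' (by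
    intro z hz z' hz'
    obtain ⟨w, hw, rfl⟩ := Finset.mem_image.1 hz
    obtain ⟨w', hw', rfl⟩ := Finset.mem_image.1 hz'
    rw [hmul]
    refine (Real.sqrt_le_sqrt ?_).trans (hd w hw w' hw')
    have := n₁ (w - w').1
    change H₂ (w - w').2 ≤ H₁ (w - w').1 + H₂ (w - w').2
    linarith)
  refine ⟨fun z => finProdFinEquiv (f₁ z.1, f₂ z.2), fun z hz z' hz' h => ?_⟩
  have h' := finProdFinEquiv.injective h
  have e1 : f₁ z.1 = f₁ z'.1 := congrArg Prod.fst h'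
  have e2 : f₂ z.2 = f₂ z'.2 := congrArg Prod.snd h'
  have g1 := hf₁ z.1 (Finset.mem_image_of_mem _ hz) z'.1 (Finset.mem_image_of_mem _ hz') e1
  have g2 := hf₂ z.2 (Finset.mem_image_of_mem _ hz) z'.2 (Finset.mem_image_of_mem _ hz') e2
  rw [Real.sqrt_le_left hρ'.le, div_pow, Real.sq_sqrt (by norm_num : (0 : ℝ) ≤ 2)] at g1 g2
  rw [Real.sqrt_le_left hρ.le]
  change H₁ (z.1 - z'.1) + H₂ (z.2 - z'.2) ≤ ρ ^ 2
  linarith

theorem sc1_sub {G : Type} [AddCommGroup G] (t : Bool) (a : ℕ) (x y : G) :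
    sc1 t a (x - y) = sc1 t a x - sc1 t a y := by
  unfold sc1
  exact smul_sub _ _ _

theorem sc1_zero {G : Type} [AddCommGroup G] (t : Bool) (x : G) : sc1 t 0 x = x := by
  unfold sc1
  cases t <;> simp

theorem sc1_add {G : Type} [AddCommGroup G] (t : Bool) (a b : ℕ) (x : G) :
    sc1 t (a + b) x = sc1 t a (sc1 t b x) := by
  unfold sc1
  cases t
  · simp only [Bool.false_eq_true, if_false]
    rw [smul_smul, pow_add]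
  · simp only [if_true]
    rw [smul_smul, pow_add]

theorem sc1_mem {G : Type} [AddCommGroup G] (Γ : AddSubgroup G) (t : Bool) (a : ℕ) (x : G)
    (hx : x ∈ Γ) : sc1 t a x ∈ Γ := by
  unfold sc1
  exact Γ.nsmul_mem hx _

theorem sc1_mul {K : Type} [Field K] [NumberField K] [DecidableEq K] {W : Affine K} {t : Bool}
    {H : W.Point → ℝ} {co cp : W.Point → K} {c₀ : ℝ} (hF : Fac W t H co cp c₀) (a : ℕ)
    (P : W.Point) : H (sc1 t a P) = 4 ^ a * H P := by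
  unfold sc1
  rw [hF.mul]
  cases t
  · simp only [Bool.false_eq_true, if_false]
    push_cast
    rw [← pow_mul, mul_comm a 2, pow_mul]
    norm_num
  · simp only [if_true]
    push_cast
    rw [pow_one]

theorem t_PRD : Pool.Agent.Helper68.SG2.PRD := by
  intro K _ _ _ W₁ W₂ t₁ t₂ H₁ H₂ co₁ cp₁ co₂ cp₂ c₀ hF₁ hF₂
  refine ⟨⟨fun x => add_nonneg (hF₁.nonneg _) (hF₂.nonneg _), fun x => ?_,
    fun x y => tri_prod hF₁.nonneg hF₂.nonneg hF₁.tri hF₂.tri x y, fun x => ?_, fun a b x => ?_,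
    fun a x y => ?_, fun a x => ?_⟩, fun Γ₁ Γ₂ hΓ₁ hΓ₂ => ⟨?_, fun a z hz => ?_⟩⟩
  · exact congrArg₂ (· + ·) (hF₁.neg x.1) (hF₂.neg x.2)
  · exact Prod.ext (sc1_zero t₁ x.1) (sc1_zero t₂ x.2)
  · exact Prod.ext (sc1_add t₁ a b x.1) (sc1_add t₂ a b x.2)
  · exact Prod.ext (sc1_sub t₁ a x.1 y.1) (sc1_sub t₂ a x.2 y.2)
  · change H₁ (sc1 t₁ a x.1) + H₂ (sc1 t₂ a x.2) = 4 ^ a * (H₁ x.1 + H₂ x.2)
    rw [sc1_mul hF₁, sc1_mul hF₂]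
    ring
  · exact pk_prod hF₁.nonneg hF₂.nonneg hΓ₁ hΓ₂
  · rw [AddSubgroup.mem_prod] at hz ⊢
    exact ⟨sc1_mem Γ₁ t₁ a z.1 hz.1, sc1_mem Γ₂ t₂ a z.2 hz.2⟩

end

end Pool.Agent.Helper25.SG2
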